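import Pool.Agent.Lib.MP_39e9bb_an.Star

set_option autoImplicit false

namespace Pool.Agent.Lib.MP_39e9bb_an.Old.NoStarConstant

open Complex Set Filter Topology

/-- The local inverse `g` of `f` at `0` with `g 0 = 0` continues analytically along the segment
`{s * exp (i θ) : 0 ≤ s < R}` with all its values in the unit disk: there is a chain of function
elements `G s`, analytic at `s * exp (i θ)`, locally compatible along the segment. -/
def Continues (f : ℂ → ℂ) (θ R : ℝ) : Prop :=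
  ∃ G : ℝ → ℂ → ℂ, G 0 0 = 0 ∧ (∀ᶠ u in 𝓝 (0 : ℂ), f (G 0 u) = u) ∧
    ∀ s ∈ Set.Ico (0 : ℝ) R,
      AnalyticAt ℂ (G s) (s * Complex.exp (θ * Complex.I)) ∧
      G s (s * Complex.exp (θ * Complex.I)) ∈ Metric.ball (0 : ℂ) 1 ∧
      ∀ᶠ (s' : ℝ) in 𝓝[Set.Ico (0 : ℝ) R] s, G s' =ᶠ[𝓝 (s' * Complex.exp (θ * Complex.I))] G s

/-- The principal star: the points `t * exp (i θ)` with `0 ≤ t < r(θ)`, where `r(θ)` is the
supremum of the `R` such that the inverse continues along the segment of length `R`. -/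
def principalStar (f : ℂ → ℂ) : Set ℂ :=
  {w | ∃ θ t R : ℝ, 0 ≤ t ∧ t < R ∧ Continues f θ R ∧ w = t * Complex.exp (θ * Complex.I)}

private theorem inverse_persists {f : ℂ → ℂ} (hf : Differentiable ℂ f) {e : ℂ} {R : ℝ}
    {G : ℝ → ℂ → ℂ} (h0 : ∀ᶠ u in 𝓝 (0 : ℂ), f (G 0 u) = u)
    (hG : ∀ s ∈ Set.Ico (0 : ℝ) R, AnalyticAt ℂ (G s) (s * e) ∧
      ∀ᶠ (s' : ℝ) in 𝓝[Set.Ico (0 : ℝ) R] s, G s' =ᶠ[𝓝 (s' * e)] G s) :
    ∀ s ∈ Set.Ico (0 : ℝ) R, ∀ᶠ u in 𝓝 ((s : ℂ) * e), f (G s u) = u := by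
  intro s hs
  have key := (isPreconnected_Ico (a := (0 : ℝ)) (b := R)).induction₂'
    (fun x y : ℝ => (∀ᶠ u in 𝓝 ((x : ℂ) * e), f (G x u) = u) →
      (∀ᶠ u in 𝓝 ((y : ℂ) * e), f (G y u) = u)) ?_
    (fun x y z _ _ _ h1 h2 h => h2 (h1 h)) (x := 0) (y := s) ⟨le_rfl, hs.1.trans_lt hs.2⟩ hs
  · exact key (by simpa using h0)
  intro x hx
  obtain ⟨han, hev⟩ := hG x hx
  obtain ⟨r, hr, hball⟩ := han.exists_ball_analyticOnNhd
  have hcomp : AnalyticOnNhd ℂ (fun u => f (G x u)) (Metric.ball ((x : ℂ) * e) r) :=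
    fun u hu => (hf.analyticAt _).comp (hball u hu)
  have hid : AnalyticOnNhd ℂ (fun u : ℂ => u) (Metric.ball ((x : ℂ) * e) r) :=
    fun u _ => analyticAt_id
  have hc : Continuous (fun y : ℝ => (y : ℂ) * e) := by fun_prop
  have hin : ∀ᶠ (y : ℝ) in 𝓝[Set.Ico (0 : ℝ) R] x, (y : ℂ) * e ∈ Metric.ball ((x : ℂ) * e) r :=
    (hc.continuousAt.eventually (Metric.ball_mem_nhds _ hr)).filter_mono nhdsWithin_le_nhds
  filter_upwards [hev, hin] with y hy hyin
  constructor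
  · intro h
    have h1 := hcomp.eqOn_of_preconnected_of_eventuallyEq hid (convex_ball _ _).isPreconnected
      (Metric.mem_ball_self hr) h
    filter_upwards [hy, Metric.isOpen_ball.mem_nhds hyin] with u hu hu'
    rw [hu]
    exact h1 hu'
  · intro h
    have h2 : (fun u => f (G x u)) =ᶠ[𝓝 ((y : ℂ) * e)] (fun u => u) := by
      filter_upwards [hy, h] with u hu hu'
      rw [← hu]
      exact hu'
    have h1 := hcomp.eqOn_of_preconnected_of_eventuallyEq hid (convex_ball _ _).isPreconnected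
      hyin h2
    filter_upwards [Metric.ball_mem_nhds _ hr] with u hu
    exact h1 hu

/-- For every `ε > 0` there is an entire function `f` with `f 0 = 0` and `f' 0 = 1` such that
the principal star of `f` on the unit disk contains no open disk of radius `ε`. -/
theorem result :
    ∀ ε : ℝ, 0 < ε → ∃ f : ℂ → ℂ, Differentiable ℂ f ∧ f 0 = 0 ∧ deriv f 0 = 1 ∧
      ∀ c : ℂ, ¬ (Metric.ball c ε ⊆ principalStar f) := by
  intro ε hε
  obtain ⟨f, hf, hf0, hf1, hno⟩ := Pool.Agent.Lib.MP_39e9bb_an.no_disk ε hε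
  refine ⟨f, hf, hf0, hf1, fun c hc => hno c (hc.trans ?_)⟩
  rintro w ⟨θ, t, R, ht0, htR, ⟨G, hG0, hGinv, hG⟩, rfl⟩
  set e : ℂ := Complex.exp (θ * Complex.I) with he
  have hinv := inverse_persists hf (e := e) hGinv (fun s hs => ⟨(hG s hs).1, (hG s hs).2.2⟩)
  have hmem : ∀ τ ∈ Set.Icc (0 : ℝ) 1, τ * t ∈ Set.Ico (0 : ℝ) R := by
    intro τ hτ
    refine ⟨mul_nonneg hτ.1 ht0, lt_of_le_of_lt ?_ htR⟩
    nlinarith [hτ.1, hτ.2]
  have hcont : ContinuousOn (fun s : ℝ => G s (s * e)) (Set.Ico (0 : ℝ) R) := by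
    intro s hs
    obtain ⟨han, -, hev⟩ := hG s hs
    have hc : Continuous (fun y : ℝ => (y : ℂ) * e) := by fun_prop
    have h1 : ContinuousWithinAt (fun y : ℝ => G s (y * e)) (Set.Ico (0 : ℝ) R) s :=
      (ContinuousAt.comp (f := fun y : ℝ => (y : ℂ) * e) han.continuousAt
        hc.continuousAt).continuousWithinAt
    refine h1.congr_of_eventuallyEq ?_ rfl
    filter_upwards [hev] with y hy
    exact hy.self_of_nhds
  refine ⟨fun τ => G (τ * t) (((τ * t : ℝ) : ℂ) * e), ?_, by simpa using hG0, ?_⟩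
  · exact hcont.comp (f := fun τ : ℝ => τ * t) (by fun_prop) hmem
  · intro τ hτ
    obtain ⟨han, hball, -⟩ := hG _ (hmem τ hτ)
    have h1 := hinv _ (hmem τ hτ)
    refine ⟨hball, ?_, ?_⟩
    · rw [h1.self_of_nhds]
      push_cast
      ring
    · intro hz
      have h2 := (hf _).hasDerivAt.comp _ han.differentiableAt.hasDerivAt
      have h3 : HasDerivAt (f ∘ G (τ * t)) 1 (((τ * t : ℝ) : ℂ) * e) :=
        (hasDerivAt_id _).congr_of_eventuallyEq h1
      have h4 := h2.unique h3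
      simp only at hz
      rw [hz, zero_mul] at h4
      exact zero_ne_one h4

end Pool.Agent.Lib.MP_39e9bb_an.Old.NoStarConstant
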